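import Pool.Agent.Helper53.UG.Z6
import Pool.Agent.Helper60.UW.R

/-!
# UW Z6: zeros with `|β - 1/2| ≥ 1/64`, all kernel scales `m ≤ M ≤ 2c`

`wt · D ≤ PW (e/2 |RR|⁴ + (k D + D³/k)/(4e))` with `e = T^(-15/16384)/VV`, `k = T^(15/8192)`.
-/

set_option autoImplicit false
open MeasureTheory Set Filter Topology
open Pool.Agent.Helper57.Zeta Pool.Agent.Helper57.LH Pool.Agent.Helper57.ED Pool.Agent.Helper54.LG
open Pool.Agent.Helper69.UG (pt NX XX NR NM WW near far)
open Pool.Agent.Helper69.UV (ww HH)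
open Pool.Agent.Helper69.UW
open Pool.Agent.Helper53.UG (DD DD_nonneg mDD DD_cube mPoly amgm ex_pow)

namespace Pool.Agent.Helper53.UW

variable {δ : ℝ}

theorem mDeep_aux (hδ : 0 < δ) (hδ1 : δ ≤ 1 / 32) : ∃ c0 T0 : ℝ, ∀ T c m v : ℝ, T0 ≤ T → Adm c0 T c m → |v| = vv δ c m →
    ∀ M τ u : ℝ, m ≤ M → M ≤ 2 * c → |τ| ≤ 2 * T → |u| ≤ T →
    Integrable (fun t => wt δ T c m v τ t * DD (XX T M) (t + u)) ∧
    ∫ t, wt δ T c m v τ t * DD (XX T M) (t + u) ≤ T ^ (-(1 / 2000) : ℝ) * VV δ T c m v := by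
  obtain ⟨A, c0a, Ta, hm4⟩ := Pool.Agent.Helper60.UW.m4 hδ hδ1
  obtain ⟨c0b, Tb, hbd⟩ := Pool.Agent.Helper36.UW.rr_bd hδ hδ1
  obtain ⟨T1, hT13, hmD⟩ := mDD
  obtain ⟨C2, hC2, hcube⟩ := DD_cube
  obtain ⟨C1, hC1, hpoly⟩ := mPoly
  obtain ⟨T2, hT2⟩ := ex_pow (2 + C1 * C2 / 4)
  set A' := max A 1 with hA'
  have hA1 : 1 ≤ A' := le_max_right _ _
  refine ⟨max (max c0a c0b) 1, max (max (max Ta Tb) T1) (max (Real.exp (Real.exp (256 * A')))
    T2), ?_⟩
  intro T c m v hT hAdm hv M τ u hmM hMc hτ hu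
  have hTa : Ta ≤ T := (le_max_left _ _).trans ((le_max_left _ _).trans ((le_max_left _ _).trans hT))
  have hTb : Tb ≤ T := (le_max_right _ _).trans ((le_max_left _ _).trans ((le_max_left _ _).trans hT))
  have hT1 : T1 ≤ T := (le_max_right _ _).trans ((le_max_left _ _).trans hT)
  have hTe : Real.exp (Real.exp (256 * A')) ≤ T := (le_max_left _ _).trans ((le_max_right _ _).trans hT)
  have hTC : 2 + C1 * C2 / 4 ≤ T ^ (1 / 10000 : ℝ) := hT2 T ((le_max_right _ _).trans ((le_max_right _ _).trans hT))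
  have hT3 : 3 ≤ T := hT13.trans hT1
  have hT0 : 0 < T := by linarith
  have hTg1 : 1 ≤ T := by linarith
  have hca : Adm c0a T c m := hAdm.mono ((le_max_left _ _).trans (le_max_left _ _))
  have hcb : Adm c0b T c m := hAdm.mono ((le_max_right _ _).trans (le_max_left _ _))
  have hc1 : 1 ≤ c := by linarith [hAdm.1]
  have hcp : 0 < c := by linarith
  have hm1 : 1 ≤ m := hAdm.2.1
  have hM0 : 0 < M := by linarith
  have hcL := hAdm.2.2.2.2
  obtain ⟨hm4i, hm4v⟩ := hm4 T c m v hTa hca hv τ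
  have hV1 : 1 ≤ VV δ T c m v := (hbd T c m v hTb hcb hv 0).2
  have hLe : Real.exp (256 * A') ≤ Real.log T := by rw [Real.le_log_iff_exp_le hT0]; exact hTe
  have hL0 : 0 < Real.log T := (Real.exp_pos _).trans_le hLe
  have hll : 256 * A' ≤ Real.log (Real.log T) := by rw [Real.le_log_iff_exp_le hL0]; exact hLe
  have hAc : A' * c ≤ Real.log T / 4096 := by
    have h1 : c * (256 * A') ≤ c * Real.log (Real.log T) := by gcongr
    linarith
  set L := Real.log T with hLd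
  set V := VV δ T c m v with hVd
  have hV0 : 0 < V := by linarith
  have hX : 1 ≤ XX T M := by
    unfold XX
    rw [le_div_iff₀ hM0]
    have h1 : 1 * c ≤ A' * c := by gcongr
    rw [← hLd]
    linarith
  have hS : Real.exp (A' * c) ≤ T ^ (1 / 4096 : ℝ) := by
    rw [Real.rpow_def_of_pos hT0, Real.exp_le_exp, ← hLd]
    linarith
  have hEA : Real.exp (A * c) ≤ T ^ (1 / 4096 : ℝ) :=
    (Real.exp_le_exp.mpr (mul_le_mul_of_nonneg_right (le_max_left _ _) hcp.le)).trans hS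
  have hcS : c ≤ T ^ (1 / 4096 : ℝ) := by
    refine le_trans ?_ hS
    have h1 := Real.add_one_le_exp (A' * c)
    have h2 : 1 * c ≤ A' * c := by gcongr
    linarith
  obtain ⟨hDi, hDv⟩ := hmD T hT1 (XX T M) hX τ u hτ hu
  obtain ⟨hPi, hPv⟩ := hpoly T hT3 τ u hτ hu
  have hDv' : ∫ t, PW (WW T) (t - τ) * DD (XX T M) (t + u) ≤ 4 * c * T ^ (-(15 / 4096) : ℝ) := by
    refine hDv.trans ?_
    have e1 : 2 * L / XX T M = 2 * M := by
      unfold XX
      rw [← hLd]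
      field_simp
    rw [e1]
    have : 2 * M ≤ 4 * c := by linarith
    gcongr
  have hW0 : 0 < WW T := Real.rpow_pos_of_pos hT0 _
  set e : ℝ := T ^ (-(15 / 16384) : ℝ) / V with he
  have he0 : 0 < e := by positivity
  set k : ℝ := T ^ (15 / 8192 : ℝ) with hk
  have hk0 : 0 < k := by positivity
  -- the dominating function
  set F : ℝ → ℝ := fun t => e / 2 * (PW (WW T) (t - τ) * ‖RR δ T c m v t‖ ^ 4) +
    (k / (4 * e) * (PW (WW T) (t - τ) * DD (XX T M) (t + u)) +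
      C2 / (4 * e * k) * (PW (WW T) (t - τ) * (4 + |t + u|) ^ (1 / 4096 : ℝ))) with hF
  have hFi : Integrable F := (hm4i.const_mul _).add ((hDi.const_mul _).add (hPi.const_mul _))
  have hle : ∀ t, wt δ T c m v τ t * DD (XX T M) (t + u) ≤ F t := by
    intro t
    have hD0 := DD_nonneg (XX T M) (t + u)
    have hp := PW_pos hW0 (t - τ)
    have h1 := amgm (a := ‖RR δ T c m v t‖ ^ 2) hD0 he0 hk0
    have h2 := hcube (XX T M) (t + u) hX
    have h3 : 1 / (4 * e) * (k * DD (XX T M) (t + u) + DD (XX T M) (t + u) ^ 3 / k) ≤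
        1 / (4 * e) * (k * DD (XX T M) (t + u) + (C2 * (4 + |t + u|) ^ (1 / 4096 : ℝ)) / k) := by gcongr
    calc wt δ T c m v τ t * DD (XX T M) (t + u) = PW (WW T) (t - τ) * (‖RR δ T c m v t‖ ^ 2 * DD (XX T M) (t + u)) := by
          unfold wt; ring
      _ ≤ PW (WW T) (t - τ) * (e / 2 * (‖RR δ T c m v t‖ ^ 2) ^ 2 +
          1 / (4 * e) * (k * DD (XX T M) (t + u) + (C2 * (4 + |t + u|) ^ (1 / 4096 : ℝ)) / k)) := by
          refine mul_le_mul_of_nonneg_left (h1.trans ?_) hp.le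
          linarith
      _ = F t := by
          simp only [hF]
          field_simp
  have hmeas : AEStronglyMeasurable (fun t => wt δ T c m v τ t * DD (XX T M) (t + u)) := by
    have hRc : Continuous (RR δ T c m v) := Pool.Agent.Helper60.UV.Rr_cont (rr δ T c m v) (NR T)
    have h1 : AEStronglyMeasurable (fun t => ‖RR δ T c m v t‖ ^ 2 * (PW (WW T) (t - τ) * DD (XX T M) (t + u))) :=
      ((hRc.norm.pow 2).aestronglyMeasurable).mul hDi.aestronglyMeasurable
    refine h1.congr (ae_of_all _ fun t => ?_)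
    simp only [wt]
    ring
  have hwt0 : ∀ t, 0 ≤ wt δ T c m v τ t * DD (XX T M) (t + u) := by
    intro t
    have hD0 := DD_nonneg (XX T M) (t + u)
    have hp := PW_pos hW0 (t - τ)
    unfold wt
    positivity
  have hint : Integrable (fun t => wt δ T c m v τ t * DD (XX T M) (t + u)) := by
    refine hFi.mono' hmeas (ae_of_all _ fun t => ?_)
    rw [Real.norm_of_nonneg (hwt0 t)]
    exact hle t
  refine ⟨hint, ?_⟩
  have hFv : ∫ t, F t = e / 2 * (∫ t, PW (WW T) (t - τ) * ‖RR δ T c m v t‖ ^ 4) +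
      (k / (4 * e) * (∫ t, PW (WW T) (t - τ) * DD (XX T M) (t + u)) +
      C2 / (4 * e * k) * (∫ t, PW (WW T) (t - τ) * (4 + |t + u|) ^ (1 / 4096 : ℝ))) := by
    simp only [hF]
    have i23 : Integrable (fun t => k / (4 * e) * (PW (WW T) (t - τ) * DD (XX T M) (t + u)) +
      C2 / (4 * e * k) * (PW (WW T) (t - τ) * (4 + |t + u|) ^ (1 / 4096 : ℝ))) :=
      (hDi.const_mul _).add (hPi.const_mul _)
    rw [integral_add (hm4i.const_mul _) i23,
      integral_add (hDi.const_mul _) (hPi.const_mul _), integral_const_mul, integral_const_mul, integral_const_mul]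
  -- the three bounds
  set S : ℝ := T ^ (1 / 4096 : ℝ) with hSd
  have hS0 : 0 < S := by positivity
  set Q : ℝ := T ^ (-(11 / 16384) : ℝ) with hQ
  have hQ0 : 0 < Q := by positivity
  have hSQ : T ^ (-(15 / 16384) : ℝ) * S = Q := by
    rw [hSd, hQ, ← Real.rpow_add hT0]; norm_num
  have b1 : e / 2 * (∫ t, PW (WW T) (t - τ) * ‖RR δ T c m v t‖ ^ 4) ≤ Q / 2 * V := by
    calc e / 2 * (∫ t, PW (WW T) (t - τ) * ‖RR δ T c m v t‖ ^ 4) ≤ e / 2 * (S * V ^ 2) := by
          refine mul_le_mul_of_nonneg_left (hm4v.trans ?_) (by positivity)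
          gcongr
      _ = (T ^ (-(15 / 16384) : ℝ) * S) / 2 * V := by
          rw [he]; field_simp
      _ = _ := by rw [hSQ]
  have b2 : k / (4 * e) * (∫ t, PW (WW T) (t - τ) * DD (XX T M) (t + u)) ≤ Q * V := by
    have h1 : k * T ^ (-(15 / 4096) : ℝ) = T ^ (-(15 / 16384) : ℝ) * T ^ (-(15 / 16384) : ℝ) := by
      rw [hk, ← Real.rpow_add hT0, ← Real.rpow_add hT0]; norm_num
    calc k / (4 * e) * (∫ t, PW (WW T) (t - τ) * DD (XX T M) (t + u))
        ≤ k / (4 * e) * (4 * S * T ^ (-(15 / 4096) : ℝ)) := by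
          refine mul_le_mul_of_nonneg_left (hDv'.trans ?_) (by positivity)
          gcongr
      _ = (k * T ^ (-(15 / 4096) : ℝ)) * S / e := by field_simp
      _ = (T ^ (-(15 / 16384) : ℝ) * S) * V := by
          rw [h1, he]
          have h2 : T ^ (-(15 / 16384) : ℝ) ≠ 0 := by positivity
          field_simp
      _ = _ := by rw [hSQ]
  have b3 : C2 / (4 * e * k) * (∫ t, PW (WW T) (t - τ) * (4 + |t + u|) ^ (1 / 4096 : ℝ)) ≤
      C1 * C2 / 4 * Q * V := by
    have h1 : S = k * T ^ (-(15 / 16384) : ℝ) * Q := by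
      rw [hSd, hk, hQ, ← Real.rpow_add hT0, ← Real.rpow_add hT0]; norm_num
    calc C2 / (4 * e * k) * (∫ t, PW (WW T) (t - τ) * (4 + |t + u|) ^ (1 / 4096 : ℝ))
        ≤ C2 / (4 * e * k) * (C1 * S) := mul_le_mul_of_nonneg_left hPv (by positivity)
      _ = C2 / (4 * e * k) * (C1 * (k * T ^ (-(15 / 16384) : ℝ) * Q)) := by rw [← h1]
      _ = _ := by
          rw [he]
          have h2 : T ^ (-(15 / 16384) : ℝ) ≠ 0 := by positivity
          field_simp
  have hfin : (2 + C1 * C2 / 4) * Q ≤ T ^ (-(1 / 2000) : ℝ) := by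
    calc (2 + C1 * C2 / 4) * Q ≤ T ^ (1 / 10000 : ℝ) * Q := by gcongr
      _ = T ^ (1 / 10000 + -(11 / 16384) : ℝ) := by rw [hQ, ← Real.rpow_add hT0]
      _ ≤ _ := Real.rpow_le_rpow_of_exponent_le hTg1 (by norm_num)
  calc ∫ t, wt δ T c m v τ t * DD (XX T M) (t + u) ≤ ∫ t, F t := integral_mono hint hFi hle
    _ ≤ Q / 2 * V + (Q * V + C1 * C2 / 4 * Q * V) := by
        rw [hFv]
        exact add_le_add b1 (add_le_add b2 b3)
    _ ≤ ((2 + C1 * C2 / 4) * Q) * V := by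
        have : 0 < Q * V := by positivity
        nlinarith
    _ ≤ _ := by gcongr

open Classical in
/-- Z6: zeros with `|β - 1/2| ≥ 1/64`, from `deep`, R7, Z2; all kernel scales -/
theorem mDeep (hδ : 0 < δ) (hδ1 : δ ≤ 1 / 32) : ∃ c0 T0 : ℝ, ∀ T c m v : ℝ, T0 ≤ T → Adm c0 T c m → |v| = vv δ c m →
    ∀ M τ u : ℝ, m ≤ M → M ≤ 2 * c → |τ| ≤ 2 * T → |u| ≤ T →
    Integrable (fun t => wt δ T c m v τ t * ∑' ρ : ZS, mx ρ * (if |(ρ : ℂ).re - 1 / 2| < 1 / 64 then 0 else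
      1 / (1 + zb (XX T M) (t + u) ρ ^ 2))) ∧
    ∫ t, wt δ T c m v τ t * ∑' ρ : ZS, mx ρ * (if |(ρ : ℂ).re - 1 / 2| < 1 / 64 then 0 else
      1 / (1 + zb (XX T M) (t + u) ρ ^ 2)) ≤ T ^ (-(1 / 2000) : ℝ) * VV δ T c m v := mDeep_aux hδ hδ1

end Pool.Agent.Helper53.UW
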